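import Pool.Agent.W48.KS.Defs

/-!
# The entropy of a mode as an integral
-/

set_option autoImplicit false

namespace Pool.Agent.W460.KSI

open Pool.Agent.W48.KS Pool.Agent.W259.GP

theorem int : S_int := by
  intro c hc
  set ν : ℝ := √(1 + 2 * c) with hν
  have hν2 : ν ^ 2 = 1 + 2 * c := by rw [hν]; exact Real.sq_sqrt (by positivity)
  have hν1 : 1 < ν := by
    rw [hν]
    exact Real.lt_sqrt_of_sq_lt (by linarith)
  have hI : ∫ t in (0 : ℝ)..1, Real.log (1 + 2 * c - t ^ 2) =
      (ν + 1) * Real.log (ν + 1) - (ν - 1) * Real.log (ν - 1) - 2 := by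
    have h1 : ∫ t in (0 : ℝ)..1, Real.log (1 + 2 * c - t ^ 2) =
        ∫ t in (0 : ℝ)..1, (Real.log (ν - t) + Real.log (ν + t)) := by
      apply intervalIntegral.integral_congr
      intro t ht
      rw [Set.uIcc_of_le zero_le_one, Set.mem_Icc] at ht
      change Real.log (1 + 2 * c - t ^ 2) = Real.log (ν - t) + Real.log (ν + t)
      rw [← Real.log_mul (by linarith [ht.2]) (by linarith [ht.1])]
      congr 1
      linear_combination -hν2
    have i1 : IntervalIntegrable (fun t : ℝ => Real.log (ν - t)) MeasureTheory.volume 0 1 := by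
      apply ContinuousOn.intervalIntegrable
      apply ContinuousOn.log (by fun_prop)
      intro t ht
      rw [Set.uIcc_of_le zero_le_one, Set.mem_Icc] at ht
      linarith [ht.2]
    have i2 : IntervalIntegrable (fun t : ℝ => Real.log (ν + t)) MeasureTheory.volume 0 1 := by
      apply ContinuousOn.intervalIntegrable
      apply ContinuousOn.log (by fun_prop)
      intro t ht
      rw [Set.uIcc_of_le zero_le_one, Set.mem_Icc] at ht
      linarith [ht.1]
    rw [h1, intervalIntegral.integral_add i1 i2,
      intervalIntegral.integral_comp_sub_left (fun x => Real.log x) ν,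
      intervalIntegral.integral_comp_add_left (fun x => Real.log x) ν, integral_log, integral_log]
    ring_nf
  have hp : 0 < ν + 1 := by linarith
  have hm : 0 < ν - 1 := by linarith
  have hr : rr c = (ν - 1) / (ν + 1) := rfl
  have h1r : 1 - rr c = 2 / (ν + 1) := by
    rw [hr]
    field_simp
    ring
  rw [hI]
  unfold gH
  rw [h1r, hr, Real.log_div (by norm_num) hp.ne', Real.log_div hm.ne' hp.ne']
  field_simp
  ring

end Pool.Agent.W460.KSI
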